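import Mathlib
import Pool.Agent.H320R3.Proof15

set_option autoImplicit false

namespace Pool.Agent.Results.MP_f2eb9c_nt.ParityCounterexample

open Pool.Agent.H320R3.Setup15

/-- **Main theorem.** -/
theorem result (p : ℕ) [Fact p.Prime] (hp : 5 ≤ p) (k : Type) [Field k] [Finite k] [CharP k p] :
    Hypotheses p k x0 ∅ (rbar p k) ∧
    IsIrreducibleOfHighestWeight pi15 (fun i => x0 i - rho 3 i) ∧
    (∃ M : Submodule ℤ W15, IsStableLattice pi15 M) ∧
    ∀ (M : Submodule ℤ W15) (hM : IsStableLattice pi15 M) (i : ℕ),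
      Subsingleton (H hM (∏ l ∈ (∅ : Finset ℕ), l) k i) :=
  Pool.Agent.H320R3.Proof15.main p hp k

end Pool.Agent.Results.MP_f2eb9c_nt.ParityCounterexample
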