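import Mathlib
import Pool.Agent.H320R3.CenterKills

set_option autoImplicit false

open CategoryTheory TensorProduct Matrix
open scoped MatrixGroups

namespace Pool.Agent.Results.MP_f2eb9c_nt.TraceOdd

noncomputable section

/-! ### The Galois side -/

/-- The algebraic closure of `ℚ`. -/
noncomputable abbrev Qbar : Type := AlgebraicClosure ℚ

/-- The absolute Galois group of `ℚ` (with the Krull topology). -/
noncomputable abbrev GQ : Type := AlgebraicClosure ℚ ≃ₐ[ℚ] AlgebraicClosure ℚ

/-- `A` is (the valuation ring of) a place of `Qbar` above the prime `ℓ`. -/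
def Above (l : ℕ) (A : ValuationSubring Qbar) : Prop := (l : Qbar) ∈ A.nonunits

/-- The decomposition group of a place of `Qbar`. -/
abbrev decomp (A : ValuationSubring Qbar) : Subgroup GQ := A.decompositionSubgroup ℚ

/-- The inertia group of a place of `Qbar`, as a subgroup of the Galois group. -/
def inertia (A : ValuationSubring Qbar) : Subgroup GQ :=
  (A.inertiaSubgroup ℚ).map (A.decompositionSubgroup ℚ).subtype

/-- `c` is a complex conjugation: it is induced by complex conjugation of `ℂ` through some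
embedding of `Qbar` in `ℂ`. -/
def IsComplexConj (c : GQ) : Prop :=
  ∃ ι : Qbar →+* ℂ, ∀ z : Qbar, ι (c z) = (starRingEnd ℂ) (ι z)

/-- The mod `p` cyclotomic character, with values in the units of a field `k` of
characteristic `p`: the reduction of the `p`-adic cyclotomic character. -/
noncomputable def omega (p : ℕ) [Fact p.Prime] (k : Type) [Field k] [CharP k p] : GQ →* kˣ :=
  (Units.map (ZMod.castHom (dvd_refl p) k).toMonoidHom).comp
    ((Units.map (PadicInt.toZMod (p := p)).toMonoidHom).comp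
      ((cyclotomicCharacter Qbar p).comp
        { toFun := fun σ : GQ => (σ : Qbar ≃+* Qbar)
          map_one' := rfl
          map_mul' := fun _ _ => rfl }))

/-! ### The groups `SL_n` and `PGL_n` -/

/-- The Borel subgroup of upper triangular matrices in `SL_n(R)`. -/
def borel (n : ℕ) (R : Type) [CommRing R] : Subgroup SL(n, R) where
  carrier := {g : SL(n, R) | Matrix.BlockTriangular g.1 id}
  mul_mem' := fun {a b} ha hb => by
    change Matrix.BlockTriangular (a.1 * b.1) id
    exact Matrix.BlockTriangular.mul ha hb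
  one_mem' := by
    change Matrix.BlockTriangular (1 : Matrix (Fin n) (Fin n) R) id
    exact blockTriangular_one
  inv_mem' := fun {a} ha => by
    change Matrix.BlockTriangular (adjugate a.1) id
    have hdet : (a.1).det = 1 := a.2
    have hunit : IsUnit (a.1).det := by rw [hdet]; exact isUnit_one
    let _ := Matrix.invertibleOfIsUnitDet _ hunit
    have h1 := blockTriangular_inv_of_blockTriangular
      (M := a.1) (b := (id : Fin n → Fin n)) ha
    rw [Matrix.inv_def, hdet, Ring.inverse_one, one_smul] at h1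
    exact h1

/-- `Γ₀(N)`: the preimage in `SL_n(ℤ)` of the Borel subgroup of `SL_n(ℤ/N)`. -/
def Gamma0 (n N : ℕ) : Subgroup SL(n, ℤ) :=
  (borel n (ZMod N)).comap (SpecialLinearGroup.map (Int.castRingHom (ZMod N)))

/-- The Lie algebra of `PGL_n` over `k`: all matrices modulo the scalar ones. -/
abbrev LiePGL (n : ℕ) (k : Type) [Field k] : Type :=
  Matrix (Fin n) (Fin n) k ⧸ (Submodule.span k {(1 : Matrix (Fin n) (Fin n) k)})

/-- Conjugation by `g` on matrices. -/
noncomputable def conjMat {n : ℕ} {k : Type} [Field k] (g : GL (Fin n) k) :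
    Matrix (Fin n) (Fin n) k →ₗ[k] Matrix (Fin n) (Fin n) k :=
  (LinearMap.mulLeft k (g : Matrix (Fin n) (Fin n) k)).comp
    (LinearMap.mulRight k ((g⁻¹ : GL (Fin n) k) : Matrix (Fin n) (Fin n) k))

/-- The adjoint action of (the class of) `g` on the Lie algebra of `PGL_n`. -/
noncomputable def Ad {n : ℕ} {k : Type} [Field k] (g : GL (Fin n) k) :
    LiePGL n k →ₗ[k] LiePGL n k :=
  Submodule.mapQ _ _ (conjMat g) (by
    rw [Submodule.span_le, Set.singleton_subset_iff]
    simp only [SetLike.mem_coe, Submodule.mem_comap]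
    have : conjMat g (1 : Matrix (Fin n) (Fin n) k) = 1 := by
      simp [conjMat]
    rw [this]
    exact Submodule.mem_span_singleton_self _)

/-! ### Weights of `SL_n` -/

/-- A character of the diagonal torus of `SL_n`, `diag(t₁, …, t_n) ↦ ∏ tᵢ ^ xᵢ`, is strongly regular
when `⟨x, α^∨⟩ = x i - x (i + 1) ≥ 2` for every simple coroot. -/
def StronglyRegular {n : ℕ} (x : Fin n → ℤ) : Prop :=
  ∀ (i : ℕ) (hi : i + 1 < n), 2 ≤ x ⟨i, by omega⟩ - x ⟨i + 1, hi⟩

/-- The half-sum `ρ` of the positive roots of `SL_n` (as a character of the diagonal torus, on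
which the constant vector is trivial): `ρ = (n - 1, n - 2, …, 0)`. -/
def rho (n : ℕ) (i : Fin n) : ℤ := (n : ℤ) - 1 - i

/-- `π` is an irreducible representation of `SL_n(ℚ)` over `ℚ` with a highest weight vector of
weight `wt`. -/
structure IsIrreducibleOfHighestWeight {n : ℕ} {V : Type} [AddCommGroup V] [Module ℚ V]
    (π : Representation ℚ SL(n, ℚ) V) (wt : Fin n → ℤ) : Prop where
  irreducible : ∀ W : Submodule ℚ V, (∀ g, ∀ w ∈ W, π g w ∈ W) → W = ⊥ ∨ W = ⊤
  highest : ∃ v : V, v ≠ 0 ∧ ∀ b ∈ borel n ℚ, π b v = (∏ i, (b i i) ^ (wt i)) • v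

/-- `M` is a lattice in `V` stable under `SL_n(ℤ)`. -/
structure IsStableLattice {n : ℕ} {V : Type} [AddCommGroup V] [Module ℚ V]
    (π : Representation ℚ SL(n, ℚ) V) (M : Submodule ℤ V) : Prop where
  fg : M.FG
  span : Submodule.span ℚ (M : Set V) = ⊤
  stable : ∀ g : SL(n, ℤ), ∀ m ∈ M,
    π (SpecialLinearGroup.map (Int.castRingHom ℚ) g) m ∈ M

/-- The action of `Γ₀(N)` on a stable lattice. -/
noncomputable def latticeRep {n : ℕ} {V : Type} [AddCommGroup V] [Module ℚ V]
    {π : Representation ℚ SL(n, ℚ) V} {M : Submodule ℤ V} (hM : IsStableLattice π M) (N : ℕ) :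
    Representation ℤ (Gamma0 n N) M where
  toFun g := ((π (SpecialLinearGroup.map (Int.castRingHom ℚ) (g : SL(n, ℤ)))).restrictScalars
    ℤ).restrict (fun m hm => hM.stable _ m hm)
  map_one' := by
    ext m
    simp
  map_mul' g h := by
    ext m
    change π (SpecialLinearGroup.map (Int.castRingHom ℚ) ((g : SL(n, ℤ)) * (h : SL(n, ℤ)))) m.1 =
      π (SpecialLinearGroup.map (Int.castRingHom ℚ) (g : SL(n, ℤ)))
        (π (SpecialLinearGroup.map (Int.castRingHom ℚ) (h : SL(n, ℤ))) m.1)
    rw [map_mul, map_mul, Module.End.mul_apply]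

/-- The action of `Γ₀(N)` on `M ⊗ k`. -/
noncomputable def modRep {n : ℕ} {V : Type} [AddCommGroup V] [Module ℚ V]
    {π : Representation ℚ SL(n, ℚ) V} {M : Submodule ℤ V} (hM : IsStableLattice π M) (N : ℕ)
    (k : Type) [Field k] : Representation k (Gamma0 n N) (k ⊗[ℤ] M) where
  toFun g := (latticeRep hM N g).baseChange k
  map_one' := by
    ext m
    simp
  map_mul' g h := by
    ext m
    simp

/-- The cohomology group `H^i(Γ₀(N), M ⊗ k)`. -/
noncomputable abbrev H {n : ℕ} {V : Type} [AddCommGroup V] [Module ℚ V]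
    {π : Representation ℚ SL(n, ℚ) V} {M : Submodule ℤ V} (hM : IsStableLattice π M) (N : ℕ)
    (k : Type) [Field k] (i : ℕ) : ModuleCat k :=
  groupCohomology (Rep.of (modRep hM N k)) i

/-! ### The hypotheses on the Galois representation -/

/-- `r` is odd: for every complex conjugation `c`, the trace of `Ad (r c)` on the Lie algebra of
`PGL_n` over `k` is `rank(G) - 2 rank(K) = (n - 1) - 2 ⌊n / 2⌋` (here `G = SL_n(ℝ)`,
`K = SO(n)`). -/
def IsOdd {n : ℕ} {k : Type} [Field k] (r : GQ →* PGL(n, k)) : Prop :=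
  ∀ c : GQ, IsComplexConj c → ∀ g : GL (Fin n) k, ProjGenLinGroup.mk g = r c →
    LinearMap.trace k (LiePGL n k) (Ad g) = (((n : ℤ) - 1 - 2 * ((n / 2 : ℕ) : ℤ) : ℤ) : k)

/-- `r` is nearly ordinary of type `x` at `p`: at every place above `p` the restriction of `r` to
the decomposition group is conjugate into the Borel subgroup of upper triangular matrices, in
such a way that on inertia the diagonal part is the class of `diag(ω ^ x₁, …, ω ^ x_n)`. -/
def IsNearlyOrdinary (p : ℕ) [Fact p.Prime] {n : ℕ} {k : Type} [Field k] [CharP k p]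
    (x : Fin n → ℤ) (r : GQ →* PGL(n, k)) : Prop :=
  ∀ A : ValuationSubring Qbar, Above p A → ∃ g : GL (Fin n) k, ∀ σ ∈ decomp A,
    ∃ b : GL (Fin n) k, Matrix.BlockTriangular (b : Matrix (Fin n) (Fin n) k) id ∧
      r σ = ProjGenLinGroup.mk (g * b * g⁻¹) ∧
      (σ ∈ inertia A → ∃ c : kˣ, ∀ i, (b : Matrix (Fin n) (Fin n) k) i i =
        ((c * (omega p k σ) ^ (x i) : kˣ) : k))

/-- `r` is Steinberg at `l`: the image of inertia is the cyclic group generated by (the class of)
a principal unipotent matrix. -/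
def IsSteinbergAt (l : ℕ) {n : ℕ} {k : Type} [Field k] (r : GQ →* PGL(n, k)) : Prop :=
  ∀ A : ValuationSubring Qbar, Above l A → ∃ u : GL (Fin n) k,
    ((u : Matrix (Fin n) (Fin n) k) - 1) ^ n = 0 ∧
    ((u : Matrix (Fin n) (Fin n) k) - 1) ^ (n - 1) ≠ 0 ∧
    (inertia A).map r = Subgroup.zpowers (ProjGenLinGroup.mk u)

/-- `r` is unramified at `l`. -/
def IsUnramifiedAt (l : ℕ) {n : ℕ} {k : Type} [Field k] (r : GQ →* PGL(n, k)) : Prop :=
  ∀ A : ValuationSubring Qbar, Above l A → ∀ σ ∈ inertia A, r σ = 1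

/-- All the hypotheses of the question, for `G = SL_n`, on the weight `x`, the finite set `S` of
primes and the representation `r` of the absolute Galois group of `ℚ`. -/
structure Hypotheses (p : ℕ) [Fact p.Prime] {n : ℕ} (k : Type) [Field k] [CharP k p]
    (x : Fin n → ℤ) (S : Finset ℕ) (r : GQ →* PGL(n, k)) : Prop where
  regular : StronglyRegular x
  primes : ∀ l ∈ S, l.Prime ∧ l ≠ p
  continuous : IsOpen (r.ker : Set GQ)
  odd : IsOdd r
  ordinary : IsNearlyOrdinary p x r
  steinberg : ∀ l ∈ S, IsSteinbergAt l r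
  unramified : ∀ l : ℕ, l.Prime → l ∉ S → l ≠ p → IsUnramifiedAt l r

/-! ### Proofs -/

/-- `-1` as an element of `SL_n(R)`, `n` even. -/
def negOne (n : ℕ) (hn : Even n) (R : Type) [CommRing R] : SL(n, R) :=
  ⟨-1, by rw [Matrix.det_neg]; simp [hn.neg_one_pow]⟩

lemma negOne_mem_borel (n : ℕ) (hn : Even n) (R : Type) [CommRing R] :
    negOne n hn R ∈ borel n R := by
  change Matrix.BlockTriangular (-1 : Matrix (Fin n) (Fin n) R) id
  exact blockTriangular_one.neg

lemma negOne_comm (n : ℕ) (hn : Even n) (R : Type) [CommRing R] (g : SL(n, R)) :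
    g * negOne n hn R = negOne n hn R * g := by
  apply Subtype.ext
  change g.1 * (-1) = (-1) * g.1
  simp

lemma map_negOne (n : ℕ) (hn : Even n) {R S : Type} [CommRing R] [CommRing S] (f : R →+* S) :
    SpecialLinearGroup.map f (negOne n hn R) = negOne n hn S := by
  apply Subtype.ext
  change f.mapMatrix (-1) = -1
  rw [map_neg, map_one]

lemma prod_neg_one_zpow {ι : Type} (s : Finset ι) (f : ι → ℤ) :
    ∏ i ∈ s, (-1 : ℚ) ^ f i = (-1) ^ (∑ i ∈ s, f i) := by
  classical
  induction s using Finset.induction_on with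
  | empty => simp
  | insert a s ha ih =>
    rw [Finset.prod_insert ha, Finset.sum_insert ha, ih, zpow_add₀ (by norm_num)]

/-- `-1` acts as `-1`. -/
lemma negOne_act {n : ℕ} (hn : Even n) {V : Type} [AddCommGroup V] [Module ℚ V]
    {π : Representation ℚ SL(n, ℚ) V} {wt : Fin n → ℤ} (h : IsIrreducibleOfHighestWeight π wt)
    (hwt : Odd (∑ i, wt i)) (v : V) : π (negOne n hn ℚ) v = -v := by
  obtain ⟨v₀, hv₀, hb⟩ := h.highest
  have h1 : π (negOne n hn ℚ) v₀ = -v₀ := by
    rw [hb _ (negOne_mem_borel n hn ℚ)]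
    have h2 : ∀ i, (negOne n hn ℚ) i i = -1 := by
      intro i
      change (-1 : Matrix (Fin n) (Fin n) ℚ) i i = -1
      simp
    simp_rw [h2]
    rw [prod_neg_one_zpow, hwt.neg_one_zpow, neg_one_smul]
  let W : Submodule ℚ V := LinearMap.ker (π (negOne n hn ℚ) + LinearMap.id)
  have hW : ∀ w, w ∈ W ↔ π (negOne n hn ℚ) w = -w := by
    intro w
    simp only [W, LinearMap.mem_ker, LinearMap.add_apply, LinearMap.id_apply]
    exact add_eq_zero_iff_eq_neg
  have hst : ∀ g, ∀ w ∈ W, π g w ∈ W := by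
    intro g w hw
    rw [hW] at hw ⊢
    rw [← Module.End.mul_apply, ← map_mul, ← negOne_comm, map_mul, Module.End.mul_apply, hw,
      map_neg]
  rcases h.irreducible W hst with h3 | h3
  · exact absurd ((Submodule.mem_bot ℚ).1 (h3 ▸ (hW v₀).2 h1)) hv₀
  · exact (hW v).1 (h3 ▸ Submodule.mem_top)

/-- In characteristic different from `2`, all the cohomology vanishes when the sum of the
coordinates of the highest weight is odd. -/
lemma vanishing {n : ℕ} (hn : Even n) {V : Type} [AddCommGroup V] [Module ℚ V]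
    {π : Representation ℚ SL(n, ℚ) V} {wt : Fin n → ℤ} (h : IsIrreducibleOfHighestWeight π wt)
    (hwt : Odd (∑ i, wt i)) {M : Submodule ℤ V} (hM : IsStableLattice π M) (N : ℕ) (k : Type)
    [Field k] (h2 : (2 : k) ≠ 0) (i : ℕ) : Subsingleton (H hM N k i) := by
  have hmem : negOne n hn ℤ ∈ Gamma0 n N := by
    change SpecialLinearGroup.map (Int.castRingHom (ZMod N)) (negOne n hn ℤ) ∈ borel n (ZMod N)
    rw [map_negOne]
    exact negOne_mem_borel n hn _
  refine H320R3.CenterKills.subsingleton_groupCohomology _ (⟨negOne n hn ℤ, hmem⟩ : Gamma0 n N)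
    (fun g => Subtype.ext (negOne_comm n hn ℤ g)) ?_ (isUnit_iff_ne_zero.2 h2) i
  intro a
  have h1 : latticeRep hM N ⟨negOne n hn ℤ, hmem⟩ = -LinearMap.id := by
    ext m
    change π (SpecialLinearGroup.map (Int.castRingHom ℚ) (negOne n hn ℤ)) m.1 = _
    rw [map_negOne, negOne_act hn h hwt]
    simp
  change (latticeRep hM N ⟨negOne n hn ℤ, hmem⟩).baseChange k a = -a
  rw [h1]
  simp

lemma sum_odd {p n : ℕ} (hp : p.Prime) (hp2 : p ≠ 2) (hn : n % 4 = 2) (x : Fin n → ℤ)
    (hx : ∀ i j, ((p : ℤ) - 1) ∣ x i - x j) : Odd (∑ i, (x i - rho n i)) := by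
  have hodd : p % 2 = 1 := by
    rcases hp.eq_two_or_odd with h | h
    · exact absurd h hp2
    · exact h
  let i0 : Fin n := ⟨0, by omega⟩
  have h1 : (2 : ℤ) ∣ ∑ i, (x i - x i0) := by
    refine Finset.dvd_sum fun i _ => dvd_trans ?_ (hx i i0)
    omega
  have h2 : 2 * ∑ i, rho n i = (n : ℤ) * (n - 1) := by
    have h3 : ∑ i : Fin n, rho n i = ∑ i ∈ Finset.range n, ((n : ℤ) - 1 - i) := by
      rw [← Fin.sum_univ_eq_sum_range (fun i => (n : ℤ) - 1 - i)]
      rfl
    have h4 : ((∑ i ∈ Finset.range n, i : ℕ) : ℤ) * 2 = (n : ℤ) * (n - 1) := by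
      have := Finset.sum_range_id_mul_two n
      have h5 : ((n - 1 : ℕ) : ℤ) = (n : ℤ) - 1 := by omega
      rw [← h5]
      exact_mod_cast this
    rw [h3, Finset.sum_sub_distrib]
    simp only [Finset.sum_const, Finset.card_range, nsmul_eq_mul]
    push_cast at h4
    linarith
  have h3 : ∑ i, (x i - rho n i) = ∑ i, (x i - x i0) + n * x i0 - ∑ i, rho n i := by
    rw [Finset.sum_sub_distrib, Finset.sum_sub_distrib]
    simp
  obtain ⟨m, hm⟩ : ∃ m : ℕ, n = 4 * m + 2 := ⟨n / 4, by omega⟩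
  obtain ⟨t, ht⟩ := h1
  have h4 : ∑ i, rho n i = (2 * m + 1) * (4 * m + 1) := by
    have : (n : ℤ) = 4 * m + 2 := by exact_mod_cast hm
    rw [this] at h2
    linarith
  rw [h3, ht, h4, hm]
  refine ⟨t + (2 * m + 1) * x i0 - (4 * m ^ 2 + 3 * m) - 1, ?_⟩
  push_cast
  ring

lemma Ad_of_mk_eq_one {n : ℕ} {k : Type} [Field k] (g : GL (Fin n) k)
    (hg : ProjGenLinGroup.mk g = 1) : Ad g = LinearMap.id := by
  rw [ProjGenLinGroup.mk_eq_one, Matrix.GeneralLinearGroup.center_eq_range_scalar] at hg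
  obtain ⟨u, rfl⟩ := hg
  have h1 : conjMat (Matrix.GeneralLinearGroup.scalar (Fin n) u) =
      (LinearMap.id : Matrix (Fin n) (Fin n) k →ₗ[k] _) := by
    ext1 X
    simp only [conjMat, LinearMap.comp_apply, LinearMap.mulLeft_apply, LinearMap.mulRight_apply,
      LinearMap.id_apply]
    rw [← map_inv]
    rw [Matrix.GeneralLinearGroup.coe_scalar, Matrix.GeneralLinearGroup.coe_scalar]
    ext i j
    have hu : (u : k) ≠ 0 := u.ne_zero
    simp [Matrix.diagonal_mul, Matrix.mul_diagonal]
    field_simp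
  unfold Ad
  simp only [h1]
  exact Submodule.mapQ_id _

lemma trace_id {n : ℕ} (hn : 0 < n) (k : Type) [Field k] :
    LinearMap.trace k (LiePGL n k) LinearMap.id = (((n : ℤ) * n - 1 : ℤ) : k) := by
  have : Nonempty (Fin n) := ⟨⟨0, hn⟩⟩
  rw [LinearMap.trace_id]
  have h1 := Submodule.finrank_quotient_add_finrank
    (Submodule.span k {(1 : Matrix (Fin n) (Fin n) k)})
  rw [finrank_span_singleton one_ne_zero, Module.finrank_matrix] at h1
  simp only [Fintype.card_fin, Module.finrank_self, mul_one] at h1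
  have h2 : ((Module.finrank k (LiePGL n k) : ℕ) : ℤ) = (n : ℤ) * n - 1 := by
    have : ((Module.finrank k (LiePGL n k) + 1 : ℕ) : ℤ) = ((n * n : ℕ) : ℤ) := by
      exact_mod_cast h1
    push_cast at this
    linarith
  rw [← h2]
  simp

lemma omega_pow {p : ℕ} [Fact p.Prime] (k : Type) [Field k] [CharP k p] (σ : GQ) :
    omega p k σ ^ (p - 1) = 1 := by
  unfold omega
  simp only [MonoidHom.comp_apply]
  rw [← map_pow, ZMod.units_pow_card_sub_one_eq_one, map_one]

/-- **Main theorem.** -/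
theorem result (p : ℕ) [Fact p.Prime] (hp : p ≠ 2) :
    (∃ (n : ℕ) (x : Fin n → ℤ), n % 4 = 2 ∧ p ∣ n ∧ StronglyRegular x ∧
      ∀ i j, ((p : ℤ) - 1) ∣ x i - x j) ∧
    ∀ (n : ℕ) (x : Fin n → ℤ), n % 4 = 2 → p ∣ n → StronglyRegular x →
      (∀ i j, ((p : ℤ) - 1) ∣ x i - x j) →
      ∀ (k : Type) [Field k] [Finite k] [CharP k p],
        Hypotheses p k x ∅ (1 : GQ →* PGL(n, k)) ∧
        ∀ (V : Type) [AddCommGroup V] [Module ℚ V] (π : Representation ℚ SL(n, ℚ) V),
          IsIrreducibleOfHighestWeight π (fun i => x i - rho n i) →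
          ∀ (M : Submodule ℤ V) (hM : IsStableLattice π M) (N i : ℕ),
            Subsingleton (H hM N k i) := by
  have hpp : p.Prime := Fact.out
  have hp3 : 3 ≤ p := by
    have := hpp.two_le
    omega
  have hodd : p % 2 = 1 := by
    rcases hpp.eq_two_or_odd with h | h
    · exact absurd h hp
    · exact h
  refine ⟨⟨2 * p, fun i => -((p : ℤ) - 1) * i, by omega, ⟨2, by ring⟩, ?_, ?_⟩, ?_⟩
  · intro i hi
    push_cast
    have : (3 : ℤ) ≤ p := by exact_mod_cast hp3
    nlinarith
  · intro i j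
    exact ⟨(j : ℤ) - i, by ring⟩
  intro n x hn hpn hreg hx k _ _ _
  have hn2 : Even n := ⟨n / 2, by omega⟩
  refine ⟨⟨hreg, by simp, ?_, ?_, ?_, by simp, ?_⟩, ?_⟩
  · have : ((1 : GQ →* PGL(n, k)).ker : Set GQ) = Set.univ := by
      ext g
      simp
    rw [this]
    exact isOpen_univ
  · intro c _ g hg
    rw [MonoidHom.one_apply] at hg
    rw [Ad_of_mk_eq_one g hg, trace_id (by omega)]
    obtain ⟨m, hm⟩ := hpn
    have h0 : ((n : ℕ) : k) = 0 := by
      rw [hm, Nat.cast_mul, CharP.cast_eq_zero, zero_mul]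
    have h1 : 2 * ((n / 2 : ℕ) : ℤ) = n := by omega
    rw [h1]
    push_cast
    rw [h0]
    ring
  · intro A _
    refine ⟨1, fun σ _ => ⟨1, ?_, by simp, fun _ => ?_⟩⟩
    · simpa using (blockTriangular_one : Matrix.BlockTriangular (1 : Matrix (Fin n) (Fin n) k) id)
    · have i0 : Fin n := ⟨0, by omega⟩
      refine ⟨(omega p k σ ^ (x i0))⁻¹, fun i => ?_⟩
      obtain ⟨m, hm⟩ := hx i i0
      have h1 : (omega p k σ ^ (x i0))⁻¹ * omega p k σ ^ (x i) = 1 := by
        rw [← _root_.zpow_neg, ← _root_.zpow_add]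
        have h2 : -x i0 + x i = ((p - 1 : ℕ) : ℤ) * m := by
          rw [Nat.cast_sub hpp.one_le]
          push_cast
          linarith
        rw [h2, _root_.zpow_mul, zpow_natCast, omega_pow, _root_.one_zpow]
      rw [h1]
      simp
  · intro l _ _ _ A _ σ _
    rfl
  · intro V _ _ π hπ M hM N i
    refine vanishing hn2 hπ (sum_odd hpp hp hn x hx) hM N k ?_ i
    intro h
    have h1 : ((2 : ℕ) : k) = 0 := by exact_mod_cast h
    rw [CharP.cast_eq_zero_iff k p] at h1
    have := Nat.le_of_dvd (by norm_num) h1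
    omega

end

end Pool.Agent.Results.MP_f2eb9c_nt.TraceOdd
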